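import Pool.Agent.T9h98.EP.Defs

set_option autoImplicit false

open Set
open scoped RealInnerProductSpace

namespace Pool.Agent.T9h71.EP

open Pool.Agent.T9h98.EP Pool.Agent.T9h98.DC

variable {d : ℕ} (D : RD d)

/-- differences to the dominant vector are in the cone -/
theorem cone1 (hS : S_SPAN) : ∀ v ∈ D.V, ∃ k : Fin d → ℝ, (∀ i, 0 ≤ k i) ∧
    D.ω - v = ∑ i, k i • D.α i := by
  intro v hv
  obtain ⟨hdual, -⟩ := hS d D
  obtain ⟨ρ, hρ⟩ := hdual (fun _ => 1)
  let A : Set (E d) := {u ∈ D.V | ∃ k : Fin d → ℝ, (∀ i, 0 ≤ k i) ∧ u - v = ∑ i, k i • D.α i}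
  have hAfin : A.Finite := D.fin.subset (fun u hu => hu.1)
  have hAne : A.Nonempty := ⟨v, hv, fun _ => 0, fun _ => le_rfl, by simp⟩
  obtain ⟨u, huA, hmax⟩ := Set.exists_max_image A (fun u => ⟪u, ρ⟫) hAfin hAne
  obtain ⟨huV, k, hk, huv⟩ := huA
  have hdomu : ∀ i, 0 ≤ ⟪u, D.α i⟫ := by
    intro i
    by_contra hneg
    push Not at hneg
    have ht : 0 < -(⟪u, D.α i⟫ / D.c) := by
      rw [neg_pos]
      exact div_neg_of_neg_of_pos hneg D.cpos
    have hmem : u - (⟪u, D.α i⟫ / D.c) • D.α i ∈ A := by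
      refine ⟨D.refl i u huV, fun j => k j + (if j = i then -(⟪u, D.α i⟫ / D.c) else 0), ?_, ?_⟩
      · intro j
        by_cases hj : j = i
        · simp only [hj, if_true]
          have := hk i
          linarith
        · simp only [hj, if_false, add_zero]
          exact hk j
      · simp only [add_smul, Finset.sum_add_distrib, ite_smul, zero_smul, Finset.sum_ite_eq',
          Finset.mem_univ, if_true, ← huv]
        rw [neg_smul]
        abel
    have h1 := hmax _ hmem
    simp only [inner_sub_left, real_inner_smul_left, hρ i, mul_one] at h1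
    linarith
  have hω : u = D.ω := D.dom u huV hdomu
  rw [hω] at huv
  exact ⟨k, hk, huv⟩

/-- the coefficients are supported in `T` -/
theorem cone2 (hS : S_SPAN) (T : Finset (Fin d)) (v : E d) (hv : v ∈ D.VT T) :
    ∃ k : Fin d → ℝ, (∀ i, 0 ≤ k i) ∧ (∀ i, i ∉ T → k i = 0) ∧ D.ω - v = ∑ i, k i • D.α i := by
  classical
  obtain ⟨k, hk, hkv⟩ := cone1 D hS v hv.1
  refine ⟨k, hk, ?_, hkv⟩
  intro i hi
  obtain ⟨hdual, -⟩ := hS d D
  obtain ⟨a, ha⟩ := hdual (fun j => if j = i then 1 else 0)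
  have h1 : ⟪D.ω - v, a⟫ = k i := by
    rw [hkv, sum_inner]
    simp only [real_inner_smul_left, ha]
    simp
  have h2 : ⟪D.ω - v, a⟫ = 0 := by
    have hle : Submodule.span ℝ (D.α '' (T : Set (Fin d))) ≤ (ℝ ∙ a)ᗮ := by
      rw [Submodule.span_le]
      rintro _ ⟨j, hj, rfl⟩
      rw [SetLike.mem_coe, Submodule.mem_orthogonal_singleton_iff_inner_left, ha]
      have : j ≠ i := fun h => hi (h ▸ hj)
      simp [this]
    have h3 := hle hv.2
    rwa [Submodule.mem_orthogonal_singleton_iff_inner_left] at h3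
  rw [← h1, h2]

theorem omega_mem (T : Finset (Fin d)) : D.ω ∈ D.VT T := by
  refine ⟨D.mem, ?_⟩
  rw [sub_self]
  exact Submodule.zero_mem _

theorem cone : S_CONE := by
  intro hS d D
  refine ⟨cone1 D hS, ?_, ?_⟩
  · intro T v hv hT
    obtain ⟨k, hk, hkT, hkv⟩ := cone2 D hS T v hv
    have h1 : 0 ≤ ⟪v, D.ω - v⟫ := by
      rw [hkv, inner_sum]
      refine Finset.sum_nonneg fun i _ => ?_
      rw [real_inner_smul_right]
      by_cases hi : i ∈ T
      · exact mul_nonneg (hk i) (hT i hi)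
      · rw [hkT i hi, zero_mul]
    have h2 : ‖D.ω‖ ^ 2 = ‖v‖ ^ 2 + 2 * ⟪v, D.ω - v⟫ + ‖D.ω - v‖ ^ 2 := by
      have h3 : D.ω = v + (D.ω - v) := by abel
      conv_lhs => rw [h3]
      rw [norm_add_sq_real]
    rw [D.nrm v hv.1] at h2
    have h4 : ‖D.ω - v‖ ^ 2 ≤ 0 := by linarith
    have h5 : ‖D.ω - v‖ = 0 := by
      have := sq_nonneg ‖D.ω - v‖
      exact pow_eq_zero_iff (two_ne_zero) |>.mp (le_antisymm h4 this)
    exact (sub_eq_zero.mp (norm_eq_zero.mp h5)).symm
  · intro T a ha
    have hle : ∀ u ∈ D.VT T, ⟪a, u⟫ ≤ ⟪a, D.ω⟫ := by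
      intro u hu
      obtain ⟨k, hk, hkT, hku⟩ := cone2 D hS T u hu
      have h1 : 0 ≤ ⟪a, D.ω - u⟫ := by
        rw [hku, inner_sum]
        refine Finset.sum_nonneg fun i _ => ?_
        rw [real_inner_smul_right]
        by_cases hi : i ∈ T
        · exact mul_nonneg (hk i) (ha i hi)
        · rw [hkT i hi, zero_mul]
      rw [inner_sub_right] at h1
      linarith
    ext v
    constructor
    · rintro ⟨hv, hmax⟩
      refine ⟨hv.1, ?_⟩
      obtain ⟨k, hk, hkT, hkv⟩ := cone2 D hS T v hv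
      have h1 := hmax D.ω (omega_mem D T)
      have h2 : ⟪a, D.ω - v⟫ = 0 := by
        rw [inner_sub_right]
        linarith [hle v hv]
      rw [hkv, inner_sum] at h2
      have hnn : ∀ i ∈ Finset.univ, 0 ≤ ⟪a, k i • D.α i⟫ := by
        intro i _
        rw [real_inner_smul_right]
        by_cases hi : i ∈ T
        · exact mul_nonneg (hk i) (ha i hi)
        · rw [hkT i hi, zero_mul]
      have h3 := (Finset.sum_eq_zero_iff_of_nonneg hnn).mp h2
      rw [hkv]
      refine Submodule.sum_mem _ fun i _ => ?_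
      by_cases hki : k i = 0
      · rw [hki, zero_smul]
        exact Submodule.zero_mem _
      · refine Submodule.smul_mem _ _ (Submodule.subset_span ⟨i, ?_, rfl⟩)
        have hiT : i ∈ T := by
          by_contra h
          exact hki (hkT i h)
        have h4 := h3 i (Finset.mem_univ i)
        rw [real_inner_smul_right] at h4
        have h5 : ⟪a, D.α i⟫ = 0 := (mul_eq_zero.mp h4).resolve_left hki
        simp [hiT, h5]
    · rintro ⟨hvV, hvs⟩
      have hv : v ∈ D.VT T := by
        refine ⟨hvV, Submodule.span_mono (Set.image_mono ?_) hvs⟩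
        intro i hi
        simp only [Finset.coe_filter, Set.mem_ofPred_eq] at hi
        exact hi.1
      refine ⟨hv, fun u hu => ?_⟩
      have h1 : ⟪a, D.ω - v⟫ = 0 := by
        have hle2 : Submodule.span ℝ (D.α '' ((T.filter fun i => ⟪a, D.α i⟫ = 0 :
            Finset (Fin d)) : Set (Fin d))) ≤ (ℝ ∙ a)ᗮ := by
          rw [Submodule.span_le]
          rintro _ ⟨j, hj, rfl⟩
          simp only [Finset.coe_filter, Set.mem_ofPred_eq] at hj
          rw [SetLike.mem_coe, Submodule.mem_orthogonal_singleton_iff_inner_right]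
          exact hj.2
        have h3 := hle2 hvs
        rwa [Submodule.mem_orthogonal_singleton_iff_inner_right] at h3
      rw [inner_sub_right] at h1
      have := hle u hu
      linarith

end Pool.Agent.T9h71.EP

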